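import Pool.Agent.Lib.MP_4b56aa_gt.Cert.CFin
import Pool.Agent.Lib.MP_4b56aa_gt.Data.T0F
import Pool.Agent.Lib.MP_4b56aa_gt.Data.T15F
import Pool.Agent.Lib.MP_4b56aa_gt.Data.T37F
import Pool.Agent.Lib.MP_4b56aa_gt.Data.T45F

set_option autoImplicit false

namespace Pool.Agent.Results.MP_4b56aa_gt.StadiumExact

open Pool.Agent.Lib.MP_4b56aa_gt

/-- The threshold for stadia with a minimizer that is not a horseshoe is `1 + √6 - √2`. -/
theorem result (strict : Prop) (r : ℝ) (hr : 0 < r) :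
    IsLUB {C : ℝ | 1 < C ∧ ∃ a b : Plane, a ≠ b ∧ ∃ S : Set Plane,
      IsMinimizer r (stadium (C * r) a b) S ∧ ¬ Horseshoe strict r (C * r) a b S} (1 + √6 - √2) :=
  Cert.shoe_of_tables (τ := Data.T0.tab) (L := [Data.T15.tab, Data.T37.tab, Data.T45.tab])
    (by decide +kernel)
    (List.forall_mem_cons.2 ⟨Data.T0.concl, List.forall_mem_cons.2 ⟨Data.T15.concl,
      List.forall_mem_cons.2 ⟨Data.T37.concl, List.forall_mem_singleton.2 Data.T45.concl⟩⟩⟩) strict hr

end Pool.Agent.Results.MP_4b56aa_gt.StadiumExact
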